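import Pool.Agent.Helper50.Ctrl.Final
import Pool.Agent.Helper50.Ctrl.FiniteE

set_option autoImplicit false

namespace Pool.Agent.Results.MP_c63f0d_an.PulsedControl

open MeasureTheory Set Filter Topology
open scoped ENNReal
open Pool.Agent.Helper50.Ctrl

/-- Disproof of the lower bound on the control cost in the sharp interface limit.
The set `Om` is the exterior of the unit disc, whose boundary is the unit circle of length
`2 π`; it does not move, so its inward normal speed is `0`. -/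
theorem result :
    ∃ f : ℝ → ℝ, IsBistable f ∧
      (∃ U, IsWave f (-1 / 2) (fun _ => 0) U) ∧
      (∀ (β : ℝ) (U : ℝ → ℝ), IsWave f β (fun _ => 0) U → β < 0) ∧
      effort f 0 < ⊤ ∧
      ∃ T : ℝ, 0 < T ∧ ∃ u α : ℝ → ℝ → ℝ → ℝ → ℝ,
        (∀ ε, 0 < ε → IsSolution f ε T (u ε) (α ε)) ∧
        (∀ t ∈ Icc 0 T, Tendsto (fun ε => ∫⁻ p : ℝ × ℝ, ENNReal.ofReal
          |u ε t p.1 p.2 - Om.indicator (fun _ => (1:ℝ)) p|) (𝓝[>] 0) (𝓝 0)) ∧
        limsup (fun ε => ∫⁻ t in Icc 0 T, ∫⁻ p : ℝ × ℝ, ENNReal.ofReal (α ε t p.1 p.2))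
            (𝓝[>] 0) ≤
          (1 / 2) * ∫⁻ _t in Icc 0 T, ∫⁻ _s in Ioc (0:ℝ) (2 * Real.pi), effort f 0 ∧
        liminf (fun ε => ∫⁻ t in Icc 0 T, ∫⁻ p : ℝ × ℝ, ENNReal.ofReal (α ε t p.1 p.2))
            (𝓝[>] 0) <
          ∫⁻ _t in Icc 0 T, ∫⁻ _s in Ioc (0:ℝ) (2 * Real.pi), effort f 0 := by
  have hfin : ∫⁻ _t in Icc (0:ℝ) (1 / 20), ∫⁻ _s in Ioc (0:ℝ) (2 * Real.pi), effort fm 0 < ⊤ := by
    rw [setLIntegral_const, setLIntegral_const, Real.volume_Ioc, Real.volume_Icc]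
    exact ENNReal.mul_lt_top (ENNReal.mul_lt_top effort_fm_zero_lt_top ENNReal.ofReal_lt_top)
      ENNReal.ofReal_lt_top
  have hlow := rhs_F
  set R := ∫⁻ _t in Icc (0:ℝ) (1 / 20), ∫⁻ _s in Ioc (0:ℝ) (2 * Real.pi), effort fm 0 with hR
  have hR0 : 0 < R := by
    refine lt_of_lt_of_le ?_ hlow
    rw [ENNReal.ofReal_pos]
    positivity
  have hls : limsup (fun ε => ∫⁻ t in Icc 0 (1 / 20), ∫⁻ p : ℝ × ℝ,
      ENNReal.ofReal (aF ε t p.1 p.2)) (𝓝[>] 0) ≤ (1 / 2) * R := by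
    refine (limsup_le_of_le (h := cost_F)).trans ?_
    have e : ENNReal.ofReal (2 * Real.pi * (1 / 20) * (1 / 10)) =
        (1 / 2) * ENNReal.ofReal (2 * Real.pi * (1 / 20) * (1 / 5)) := by
      have h2 : (1 / 2 : ℝ≥0∞) = ENNReal.ofReal (1 / 2) := by
        rw [ENNReal.ofReal_div_of_pos (by norm_num)]
        norm_num
      rw [h2, ← ENNReal.ofReal_mul (by norm_num)]
      congr 1
      ring
    rw [e]
    gcongr
  refine ⟨fm, fm_isBistable, fm_natural_wave, fun β U h => fm_natural_speed_neg h,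
    effort_fm_zero_lt_top, 1 / 20, by norm_num, uF, aF, fun ε hε => sol_F hε, fun t ht => L1_F ht,
    hls, ?_⟩
  refine lt_of_le_of_lt (le_trans liminf_le_limsup hls) ?_
  have h3 : (1 / 2 : ℝ≥0∞) * R < 1 * R := by
    rw [ENNReal.mul_lt_mul_iff_left hR0.ne' hfin.ne]
    norm_num
  rwa [one_mul] at h3

end Pool.Agent.Results.MP_c63f0d_an.PulsedControl
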